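import Mathlib
import Pool.Agent.H298.Core.GoodRel
import Pool.Graph.R_pool_sql_team_seeded_2aa45f1a.Q306.FG.Thms
import Pool.Agent.H298.Core.Double

/-!
# Étale motivic cohomology in the weight of the dimension, for the products of varieties over finite
fields with abelian varieties whose CM fields have irreducible odd part or primitive core

**In short.** Let `K` be a CM field of degree `2 g`, `K₀` its maximal real subfield and `2 ^ v`, `1
≤ v ≤ g`, the degree of the Galois closure of `K` over the Galois closure of `K₀` (typically `v =
g`). The theorem is for the Weil numbers `π` all powers of which generate `K`, in the following
cases (`FieldCriteria`), among others: **(a) `v > g / 3`; (b) the slopes of `π` have odd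
denominators, for example `π` is ordinary, and `v > g / 4`, or `g` is the product of two prime
numbers and `v > 1`, or `g` is prime, or `K` has few divisors in the sense of `FewDivisors`; (c) the
Galois group of `K₀` is doubly transitive, and `g` is odd, or `g - 1` is a prime number, or at least
`g` is none of the numbers `10, 16, 26, 28, 36, …` (`TwoGraphDegree`); or it is triply transitive,
for example the symmetric group, or the alternating group if `g ≥ 5`, `g ≥ 3`; and no norm of `π` to
an imaginary quadratic field is supersingular** (this is
so if `g` is odd and `π` is ordinary). The general hypothesis (`IsCoreWeil`) is explained below.

**Cores.** Let `X` be the set of the complex embeddings of the CM field `K`, `[K : ℚ] = 2 g`. The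
automorphisms of `ℂ` which map all elements of `X` to themselves or to their complex conjugates are
called sign changes. The first core of `φ : X` consists of the `ψ : X` which are moved by the same
sign changes as `φ`. If one uses all automorphisms which map the elements of the first core to
themselves or to their conjugates, one obtains the second core, inside of the first one, and so on
(`coreOf`). The cores of the same index have the same number `2 c` of elements, `c` divides `g`, and
the smallest such number `c` is the core number of `K`. It satisfies `c ≤ g / v`, and if a prime
number `q` divides the discriminant of `K`, but not the discriminant of the maximal real subfield,
then `q ^ c` divides the discriminant of `K`. `FewDivisors` says that all divisors of `g` which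
satisfy these conditions are one or prime.

**The Weil numbers.** Let `p` be a prime number, `q = p ^ a`, let `K i` (`i` in a finite set) be CM
fields and `π i` Weil numbers for `q` in `K i` such that each power `(π i) ^ n`, `n ≥ 1`, generates
`K i`. By Honda and Tate they correspond to the abelian varieties over the field with `q` elements
which are geometrically simple with commutative endomorphism ring, and to other abelian varieties.
Suppose that for each `K = K i` one of the following conditions holds (`IsCoreWeil`).

* The rational functions on `X` which change their sign under complex conjugation are an irreducible
  representation of the automorphisms of `ℂ` (`OddIrreducible`), for example because the core number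
  of `K` is one.
* There is a core with `c` pairs of embeddings, and `c` is a prime number, or `c = [K : F]` for a
  subfield `F`, not totally real, such that the automorphisms of `ℂ` act doubly transitively on the
  extensions to `K` of an embedding of `F` (`PrimitiveCore`); and there is **no** subfield `F` with
  `[K : F] = c`, not totally real, in which the norm `N` of `π i` is supersingular
  (`SupersingularNorm`; this means that `N ^ 2 / q ^ c` is a root of unity).

The condition on the norms in the second case is necessary and sufficient for the absence of
relations between the conjugates of `π i` (`NormCriteria`), and so of exotic Tate classes on the
powers of its abelian variety; it is satisfied if `c = 2`, if `c` is odd and the slopes of `π i`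
have odd denominators (for example in the ordinary case), and if all subfields `F` with `[K : F] =
c` are totally real. There are no other conditions on `π i`, its slopes, the decomposition of `p` in
`K i`, the degree or the Galois group of `K i`. The fields `K i` are pairwise independent
(`PairwiseIndep`; no condition if there is only one field). Let `f i` be monic polynomials whose
complex roots are conjugates of `π i` (`IsPolyOf`), for instance powers of the characteristic
polynomials of Frobenius.

Let `A` be an abelian variety over the field with `Q = q ^ s` elements which is isogenous to a
product of powers of abelian varieties coming from the field with `q` elements, with characteristic
polynomials `f i`, and let `Z` be **any** smooth projective variety over the field with `Q` elements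
such that

* the eigenvalues `ρ` of Frobenius on the `ℓ`-adic cohomology of `Z` and their conjugates are
  unrelated to the fields `K i` (`UnrelatedTo`): a function `n` on the complex embeddings of `K i`
  with `n (conj φ) = - n φ` which is invariant under all automorphisms of `ℂ` that fix a power of
  `ρ` is zero. This is so if for each embedding `ψ` of `K i` some automorphism which fixes a power
  of `ρ` is the complex conjugation on `ψ (K i)`: for instance, if a power of `ρ` lies in a field
  linearly disjoint from the normal closures of the `K i`, or in a totally real field. It is also so
  if the degree of `ρ` is less than twice the dimension of each nonzero space of functions `n`
  stable under all automorphisms of `ℂ`;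
* the motive of `Z` is finite-dimensional in the sense of Kimura and O'Sullivan. This is known for
  all varieties dominated by products of curves. It implies that the Frobenius endomorphism of `Z`
  satisfies, as a correspondence modulo rational equivalence, a polynomial equation with the same
  roots as on the cohomology; only this is used.

**The groups `H^i((A × Z)_et, ℤ(dim A + d))`, `i ≤ 2 (dim A + d)`, are finitely generated (question
Q1 for `A × Z`) if and only if for all `k` with `0 ≤ k ≤ dim A` the groups `H^i(Z_et, ℤ(d + k))`, `i
≤ 2 (d + k)`, are finitely generated**, where `d = dim Z` (`TopReduces`). For `k = 0` this is
question Q1 for `Z`. So question Q1 for `A × Z` implies question Q1 for `Z`; but it is stronger, as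
it contains the finite generation for `Z` in the weights `d + 1, ..., d + dim A` (cases of the
conjecture of Flach and Morin for the complexes `ℤ^c(n)` with `- dim A ≤ n < 0`). No case of the
conjectures of Tate, Beilinson, Soulé and Parshin is assumed.

What is used of `A` are known theorems (`IsAbelian`): `H(A)` is generated by `H^1`, Frobenius is
diagonalizable on `H^1` (Weil), the theorem of Tate on divisors, and the nilpotence of homologically
trivial correspondences (Kimura). The motivic cohomology groups `H^i(X, ℚ(m))`, for `X = Z` and `X =
A × Z`, are the groups of bidegree `(i, m)` of a theory which is modelled by `RelData`, with the
formal properties in `IsTheory`: degrees, products with classes on `A`, push-forward to `Z`, the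
projection formula, the operation of the correspondences of `A` and of the Frobenius endomorphism of
`Z`. The Frobenius endomorphism of `X` is the multiplication by `Q ^ m` on `H^i(X, ℚ(m))`
(`IsPure`). The groups `H^i(X_et, ℤ(m))` and `H^i(X_et, ℚ/ℤ(m))` belong to the long exact sequences
of `0 → ℤ(m) → ℚ(m) → ℚ/ℤ(m) → 0` (`EtaleData`, `IsEtale`). It is known for smooth projective `X`
(`IsSmoothProjective`) that `H^i(X_et, ℚ/ℤ(m))` is finite for `m > dim X`, and for `m = dim X`, `i <
2 m` (Deligne, Gabber, Gros and Suwa), and that `H^(2 m)(X_et, ℤ(m))` is finitely generated for `m ≥
dim X`.

Part two (`AllCriteria`) contains the criteria: the cases (a), (b) and (c) above (`FieldCriteria`, `DoublyCriteria`),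
the facts about the cores (`CoreFacts`) and about the norms (`NormCriteria`), the independence of
the fields, and the condition on the eigenvalues. A prime number `ℓ` separates `K i` from a number
field `F` if `ℓ` divides the discriminant of `K i` but not the one of its maximal real subfield and
not the one of `F`. The fields `K i` are pairwise independent if any two of them are separated by a
prime number (in one direction). All nonzero elements of `F` are independent of the `K i`, in
particular unrelated to them, if all `K i` are separated from `F`. So for example, if `ℓ` divides
the discriminant of a CM field `K` and `ℓ ^ 2` does not, then the theorem holds for all Weil numbers
`π` in `K` with `ℚ(π ^ n) = K` for all `n`, and all varieties whose eigenvalues lie in fields of a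
discriminant prime to `ℓ`.

**What was known.** In the library the reduction from `A × Z` to `Z` is proved for almost all slope
types of CM fields (`AllCMTypesTimes`, whose machine is used) and in this run for almost all Weil
polynomials (`SharpExceptionalSet`) and under a criterion for the given Weil numbers
(`FactorizationCriterion`); the abelian varieties of prime dimension are due to Tankeev, Ribet,
Lenstra and Zarhin. New here are the abelian varieties of all dimensions in the fields with
primitive cores, with a condition on the norms which is necessary and sufficient, without
exceptional types.

**The proof.** It is sufficient to show for each field `K` that the function `w`, the slope of `φ
(π)` minus one half, on the set `X` is not orthogonal to a nonzero space of odd functions which is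
stable under the automorphisms of `ℂ`. If the odd functions are irreducible this is clear. Let `r`
be an element of such a space with integral values. By the sign changes one can cut `r` down; this
gives, by induction on the size of the support and on the index of the core, a relation which is
supported in one core. The automorphisms preserving the core act transitively on it. If it has `2 c`
elements with a prime number `c`, then a Sylow subgroup contains an element which has two orbits of
length `c` on the core, exchanged by the complex conjugation. Since the cyclotomic polynomial is
irreducible, either `w (τ φ) = w (τ φ')` for all `τ` with two different `φ`, `φ'` of the core, or
the sums of `w` over the translates of one orbit are zero, and the orbit consists of the extensions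
of an embedding of a subfield `F` with `[K : F] = c`, which is not totally real. In the doubly
transitive case the extensions of an embedding of `F` are one half of the core (a sign change moves
all of them or none), and an average over a stabilizer gives the same two alternatives. In the first
case `φ (π)` and `φ' (π)` have the same absolute values at all places of all conjugates, so they
differ by a root of unity, and a power of `π` does not generate `K`. In the second case the norm of
`π` in `F` is supersingular. Conversely a supersingular norm is a relation, by Kronecker's theorem.
For the cases (a), (b) and (c) one uses that a sign change is determined by the first cores which it
moves, so that `2 ^ v ≤ 2 ^ (g / c)`, and that for a triply transitive group either the odd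
functions are irreducible or the signs are given by a character of the group, so that `K` contains
an imaginary quadratic field. If the group is doubly transitive, let `V` be a space of odd functions
which is stable under the automorphisms, neither zero nor everything. The values of its reproducing
kernel at two embeddings in different pairs are `β` or `-β`, and `β ≠ 0`; the signs form a regular
two-graph on the `g` pairs, with the eigenvalues `r` on `V` and `-s` on the orthogonal space,
`r s = g - 1`, `(r + s) dim V = g s`. If `g` is odd then `r` or `s` is even, and a descent modulo two
shows that the nonzero functions in one of the two spaces have no zeros; by the maximum principle
this is also true if `r` or `s` is `1` or `-1`. So this space has dimension one, and the signs of its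
functions give an imaginary quadratic subfield. It follows that the correspondence on `A` given by the sum of the
products of dual classes of divisor products acts as the identity on the motivic cohomology of `A ×
Z`: the Frobenius endomorphism of `A × Z` is the multiplication by `Q ^ j`, so that the Frobenius
endomorphism of `A` satisfies a power of the polynomial reciprocal to that of the Frobenius
endomorphism of `Z`; this polynomial is prime to the one whose value on `H(A)` lies in the part
generated by divisors, and the difference of the two correspondences is nilpotent (helper64). So the
rational motivic cohomology of `A × Z` is the direct sum of the products of finitely many products
of divisors on `A` with that of `Z`. In the weights `m ≥ dim X` and the degrees in question a group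
with integral coefficients is finitely generated if and only if the rational group is zero: if it is
finitely generated, then the rational group modulo its image is a divisible subgroup of a finite
group, hence zero, so that the rational group is finitely generated. (The idea to play the
eigenvalues of Frobenius off against nilpotence is due to Soulé, Geisser and Kahn.)
-/

set_option autoImplicit false

namespace Pool.Agent.Results.MP_b197b4_nt.SmallCoreFields

open NumberField Polynomial Pool.Agent.H977R3.CM Pool.Agent.Y1.CT Pool.Agent.Q64.L
  Pool.Agent.H298.Core Pool.Agent.Q306.FG

/-- **Question Q1 for `A × Z` is equivalent to the finite generation of the groups `H^i(Z_et, ℤ(d +
k))`, `i ≤ 2 (d + k)`, `0 ≤ k ≤ dim A`, `d = dim Z`, for all abelian varieties `A` whose Weil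
numbers lie in independent CM fields with irreducible odd part or primitive core, and all unrelated
smooth projective varieties `Z` with finite-dimensional motive.** -/
theorem result :
    (∀ (p : ℕ) [Fact p.Prime] (a : ℕ), 0 < a → ∀ (I : Type) [Fintype I] (K : I → Type)
      [∀ i, Field (K i)] [∀ i, NumberField (K i)] [∀ i, IsCMField (K i)], PairwiseIndep K →
      ∀ (π : ∀ i, K i) (f : I → ℤ[X]), (∀ i, IsCoreWeil p a (π i)) →
      (∀ i, IsPolyOf (π i) (f i)) → TopReduces (UnrelatedRoots K) (p ^ a) f) ∧ AllCriteria :=
  ⟨fun _ _ _ ha _ _ _ _ _ _ hK _ _ hπ hf =>
    topReduces (Nat.one_lt_pow ha.ne' (Fact.out : Nat.Prime _).one_lt)
      (good_core ha hK hπ hf), allCriteria_hold⟩

end Pool.Agent.Results.MP_b197b4_nt.SmallCoreFields
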